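import Mathlib
import Pool.Agent.TH170.MF.Defs

/-!
# The isotypic components of the odd functions on the complex embeddings of a CM field
-/

namespace Pool.Agent.TH170.QD

open NumberField Module Pool.Agent.H204R3.CM Pool.Agent.TH170.MF

variable {E : Type*} [Field E] [NumberField E]

variable (E) in
/-- The order of the Galois group (of the normal closure of `E`, acting on the complex
embeddings). -/
noncomputable def galoisOrder : ℕ :=
  Nat.card (Set.range fun (σ : ℂ ≃+* ℂ) (φ : E →+* ℂ) => (σ : ℂ →+* ℂ).comp φ)

/-- The rational functions of two embeddings that are invariant under the Galois group: the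
matrices of the equivariant endomorphisms of the space of the rational functions on the
embeddings. -/
def IsInvariant (M : (E →+* ℂ) → (E →+* ℂ) → ℚ) : Prop :=
  ∀ (σ : ℂ ≃+* ℂ) (φ ψ : E →+* ℂ),
    M ((σ : ℂ →+* ℂ).comp φ) ((σ : ℂ →+* ℂ).comp ψ) = M φ ψ

/-- The isotypic component of a space `S`: it is generated by the images of `S` under the
equivariant endomorphisms of the space of the rational functions on the embeddings. -/
noncomputable def component (S : Submodule ℚ ((E →+* ℂ) → ℚ)) : Submodule ℚ ((E →+* ℂ) → ℚ) :=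
  Submodule.span ℚ {v | ∃ M, IsInvariant M ∧ ∃ u ∈ S, ∀ φ, v φ = ∑ ψ, M φ ψ * u ψ}

variable (E) in
/-- The isotypic components of the odd functions on the embeddings of `E`. -/
noncomputable def components : Set (Submodule ℚ ((E →+* ℂ) → ℚ)) :=
  component '' minimalSpaces E

variable (E) in
/-- The number of the isotypic components of dimension `d` that are minimal Galois-stable spaces. -/
noncomputable def numSimple (d : ℕ) : ℕ :=
  {W ∈ components E | W ∈ minimalSpaces E ∧ finrank ℚ W = d}.ncard

variable (E) in
/-- The isotypic components that are not minimal Galois-stable spaces. -/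
noncomputable def multipleComponents : Set (Submodule ℚ ((E →+* ℂ) → ℚ)) :=
  {W ∈ components E | W ∉ minimalSpaces E}

/-- The space of the equivariant endomorphisms of `S`, given by their matrices (the endomorphisms
are extended by zero to the orthogonal complement of `S`). -/
noncomputable def endomorphisms (S : Submodule ℚ ((E →+* ℂ) → ℚ)) :
    Submodule ℚ ((E →+* ℂ) → (E →+* ℂ) → ℚ) :=
  Submodule.span ℚ {M | IsInvariant M ∧ (∀ φ, M φ ∈ S) ∧ ∀ ψ, (fun φ => M φ ψ) ∈ S}

/-- The functions in `S` that are invariant under the stabilizer of `φ₀`. -/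
noncomputable def fixedPart (φ₀ : E →+* ℂ) (S : Submodule ℚ ((E →+* ℂ) → ℚ)) :
    Submodule ℚ ((E →+* ℂ) → ℚ) :=
  Submodule.span ℚ {u ∈ S | ∀ σ : ℂ ≃+* ℂ, (σ : ℂ →+* ℂ).comp φ₀ = φ₀ →
    ∀ φ, u ((σ : ℂ →+* ℂ).comp φ) = u φ}

/-- The codimension of the set of the degenerate elements: the dimension of the space of the
equivariant endomorphisms of `S`, plus the dimension of `S`, minus the dimension of the space of
the functions in `S` that are invariant under the stabilizer of `φ₀`. -/
noncomputable def codim (φ₀ : E →+* ℂ) (S : Submodule ℚ ((E →+* ℂ) → ℚ)) : ℕ :=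
  finrank ℚ (endomorphisms S) + (finrank ℚ S - finrank ℚ (fixedPart φ₀ S))

/-- Some function with integral values in the space has an odd sum over a CM type. -/
def HasOddSum (S : Submodule ℚ ((E →+* ℂ) → ℚ)) : Prop :=
  ∃ u : (E →+* ℂ) → ℤ, (fun φ => (u φ : ℚ)) ∈ S ∧
    ∃ T : Set (E →+* ℂ), IsCMType T ∧ Odd (∑ᶠ φ ∈ T, u φ)

open Classical in
/-- The smaller of `(53 l d / g) ^ (c / 2)` (replaced by `1` unless
`(10 ^ 4 + 10 l) ^ 2 l d ≤ 2 g`) and
`8 (2 d / (π g)) ^ (d / 2) (10 ^ 4 + 10 l + 6 √(d g)) ^ (d - c)`. -/
noncomputable def bound (g d c : ℕ) (l : ℝ) : ℝ :=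
  min (if (10 ^ 4 + 10 * l) ^ 2 * l * d ≤ 2 * g then √(53 * l * d / g) ^ c else 1)
    (8 * √(2 * d / (Real.pi * g)) ^ d * (10 ^ 4 + 10 * l + 6 * √(d * g)) ^ (d - c))

/-- The bound for the proportion of the CM types of a CM field of degree `2 g` that are orthogonal
to a space isomorphic to `S`. -/
noncomputable def term (g : ℕ) (φ₀ : E →+* ℂ) (S : Submodule ℚ ((E →+* ℂ) → ℚ)) : ℝ :=
  bound g (finrank ℚ S) (codim φ₀ S) (Real.log (galoisOrder E))

open Classical in
/-- The bound for the proportion of the CM types that are degenerate at the component `W` of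
dimension `d`: it is `0` if each minimal space in `W` contains a function with integral values whose
sum over a CM type is odd; otherwise, if `W` is a minimal space it is `(2 d / (π g)) ^ (d / 2)`, and
if `W` is not minimal it is the number `term g φ₀ S` for the minimal spaces `S` with the component
`W`. -/
noncomputable def weight (g : ℕ) (φ₀ : E →+* ℂ) (W : Submodule ℚ ((E →+* ℂ) → ℚ)) : ℝ :=
  if ∀ S ∈ minimalSpaces E, S ≤ W → HasOddSum S then 0
  else if W ∈ minimalSpaces E then √(2 * finrank ℚ W / (Real.pi * g)) ^ finrank ℚ W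
  else sInf {x | ∃ S ∈ minimalSpaces E, component S = W ∧ x = term g φ₀ S}

end Pool.Agent.TH170.QD
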