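import Mathlib
import Pool.Agent.TH170.QD.Defs
import Pool.Agent.TH170.QE.Bound
import Pool.Agent.TH170.QC.Main

/-!
# Isotypic components by class functions and by equivariant maps
-/

set_option linter.unusedSectionVars false
set_option linter.unusedVariables false

namespace Pool.Agent.TH170.QD

open NumberField Finset Module Pool.Agent.H204R3.CM Pool.Agent.TH170.CM Pool.Agent.TH170.MF

variable {E : Type*} [Field E] [NumberField E]

theorem span_eq_of {R M : Type*} [Semiring R] [AddCommMonoid M] [Module R M] {s : Set M}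
    {N : Submodule R M} (h : (N : Set M) = s) : Submodule.span R s = N := by
  rw [← h, Submodule.span_eq]

theorem galoisOrder_eq : galoisOrder E = Nat.card (Gal E) := by
  unfold galoisOrder
  refine Nat.card_congr ?_
  refine Equiv.ofBijective (fun f => (⟨Classical.choose (p := fun π : Equiv.Perm (E →+* ℂ) =>
    π ∈ (actHom E).range ∧ ∀ φ, π φ = f.1 φ) ?_, ?_⟩ : Gal E)) ?_
  · obtain ⟨f, σ, rfl⟩ := f
    exact ⟨actHom E σ, ⟨σ, rfl⟩, fun φ => rfl⟩
  · exact (Classical.choose_spec (p := fun π : Equiv.Perm (E →+* ℂ) =>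
      π ∈ (actHom E).range ∧ ∀ φ, π φ = f.1 φ) _).1
  · constructor
    · intro f f' h
      have h1 := (Classical.choose_spec (p := fun π : Equiv.Perm (E →+* ℂ) =>
        π ∈ (actHom E).range ∧ ∀ φ, π φ = f.1 φ) (by
          obtain ⟨f, σ, rfl⟩ := f
          exact ⟨actHom E σ, ⟨σ, rfl⟩, fun φ => rfl⟩)).2
      have h2 := (Classical.choose_spec (p := fun π : Equiv.Perm (E →+* ℂ) =>
        π ∈ (actHom E).range ∧ ∀ φ, π φ = f'.1 φ) (by
          obtain ⟨f, σ, rfl⟩ := f'
          exact ⟨actHom E σ, ⟨σ, rfl⟩, fun φ => rfl⟩)).2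
      apply Subtype.ext
      funext φ
      rw [← h1, ← h2]
      exact congrArg (fun π : Gal E => (π : Equiv.Perm (E →+* ℂ)) φ) h
    · rintro ⟨π, σ, rfl⟩
      refine ⟨⟨_, σ, rfl⟩, ?_⟩
      apply Subtype.ext
      ext φ : 1
      exact (Classical.choose_spec (p := fun π : Equiv.Perm (E →+* ℂ) =>
        π ∈ (actHom E).range ∧ ∀ φ, π φ = (σ : ℂ →+* ℂ).comp φ)
          ⟨actHom E σ, ⟨σ, rfl⟩, fun φ => rfl⟩).2 φ

/-- The space of the linear maps from `S` to `S'` that commute with the Galois group. -/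
noncomputable def equivariantMaps (S S' : Submodule ℚ ((E →+* ℂ) → ℚ)) :
    Submodule ℚ (S →ₗ[ℚ] ((E →+* ℂ) → ℚ)) :=
  Submodule.span ℚ {A | (∀ s, A s ∈ S') ∧ ∀ (σ : ℂ ≃+* ℂ) (s t : S),
    (∀ φ, (t : (E →+* ℂ) → ℚ) φ = (s : (E →+* ℂ) → ℚ) ((σ : ℂ →+* ℂ).comp φ)) →
      ∀ φ, A t φ = A s ((σ : ℂ →+* ℂ).comp φ)}

/-- The isotypic component, by equivariant maps. -/
noncomputable def component' (S : Submodule ℚ ((E →+* ℂ) → ℚ)) : Submodule ℚ ((E →+* ℂ) → ℚ) :=
  Submodule.span ℚ {u | ∃ A ∈ equivariantMaps S ⊤, ∃ s, A s = u}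

theorem equivariantMaps_eq (S S' : Submodule ℚ ((E →+* ℂ) → ℚ)) :
    equivariantMaps S S' = QE.homs (Gal E) S S' := by
  refine span_eq_of ?_
  ext A
  constructor
  · rintro ⟨h1, h2⟩
    refine ⟨h1, fun σ s t h φ => ?_⟩
    obtain ⟨γ, hγ⟩ := exists_gal_smul E σ
    rw [← hγ]
    refine h2 γ s t (fun ψ => ?_) φ
    rw [h ψ, hγ]
  · rintro ⟨h1, h2⟩
    refine ⟨h1, fun γ s t h φ => ?_⟩
    obtain ⟨σ, hσ⟩ := gal_smul E γ
    rw [hσ]
    refine h2 σ s t (fun ψ => ?_) φ
    rw [h ψ, hσ]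

theorem fixedPart_eq (φ₀ : E →+* ℂ) (S : Submodule ℚ ((E →+* ℂ) → ℚ)) :
    fixedPart φ₀ S = QC.fixedPart (Gal E) φ₀ S := by
  refine span_eq_of ?_
  ext u
  constructor
  · rintro ⟨h1, h2⟩
    refine ⟨h1, fun σ hσ φ => ?_⟩
    obtain ⟨γ, hγ⟩ := exists_gal_smul E σ
    rw [← hγ]
    exact h2 γ (by rw [hγ, hσ]) φ
  · rintro ⟨h1, h2⟩
    refine ⟨h1, fun γ hγ φ => ?_⟩
    obtain ⟨σ, hσ⟩ := gal_smul E γ
    rw [hσ]
    exact h2 σ (by rw [← hσ, hγ]) φ

variable [IsCMField E]

theorem component'_eq {S : Submodule ℚ ((E →+* ℂ) → ℚ)} (hS : S ∈ minimalSpaces E) :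
    component' S = QC.component S := by
  classical
  obtain ⟨c, hc, hcc, hcen⟩ := QC.exists_conj E
  have hfun : (fun φ : E →+* ℂ => c • φ) = ComplexEmbedding.conjugate (K := E) := funext hc
  set W' := component' S with hW'
  have hle : W' ≤ QC.component S := by
    refine Submodule.span_le.2 ?_
    rintro _ ⟨A, hA, s, rfl⟩
    rw [equivariantMaps_eq] at hA
    obtain ⟨-, hA2⟩ := hA
    let sg : Gal E → S := fun γ => ⟨fun φ => (s : (E →+* ℂ) → ℚ) (γ • φ),
      (invariant_iff S).2 hS.2.1 γ _ s.2⟩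
    have hsg : ∀ γ φ, A (sg γ) φ = A s (γ • φ) := fun γ φ =>
      hA2 γ s (sg γ) (fun ψ => rfl) φ
    refine ⟨fun φ => ?_, fun a ha φ => ?_⟩
    · have h1 : sg c = - s := by
        apply Subtype.ext
        funext ψ
        change (s : (E →+* ℂ) → ℚ) (c • ψ) = - (s : (E →+* ℂ) → ℚ) ψ
        rw [hc]
        exact hS.2.2.1 _ s.2 ψ
      rw [← hc, ← hsg, h1, map_neg]
      rfl
    · have h1 : ∑ γ : Gal E, a (ConjClasses.mk γ) • sg γ = 0 := by
        apply Subtype.ext
        funext ψ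
        rw [Submodule.coe_sum, Finset.sum_apply]
        exact ha s s.2 ψ
      have h2 := congrFun (congrArg A h1) φ
      rw [map_sum, map_zero, Finset.sum_apply, Pi.zero_apply] at h2
      rw [← h2]
      refine sum_congr rfl fun γ _ => ?_
      rw [map_smul, Pi.smul_apply, smul_eq_mul, hsg]
  refine le_antisymm hle ?_
  by_contra hnle
  obtain ⟨u, hu, huW⟩ := SetLike.not_le_iff_exists.1 hnle
  have hW'i : Invariant (Gal E) W' := by
    intro γ w hw
    induction hw using Submodule.span_induction with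
    | mem w hw =>
      obtain ⟨A, hA, s, rfl⟩ := hw
      have hA' := hA
      rw [equivariantMaps_eq] at hA'
      refine Submodule.subset_span ⟨A, hA, ⟨fun φ => (s : (E →+* ℂ) → ℚ) (γ • φ),
        (invariant_iff S).2 hS.2.1 γ _ s.2⟩, ?_⟩
      funext φ
      exact hA'.2 γ s _ (fun ψ => rfl) φ
    | zero => exact W'.zero_mem
    | add v w _ _ hv hw => exact W'.add_mem hv hw
    | smul r v _ hv => exact W'.smul_mem r hv
  let S₁ := QC.component S ⊓ (dot (E →+* ℂ)).orthogonal W'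
  have hS₁0 : S₁ ≠ ⊥ := by
    rw [Submodule.ne_bot_iff]
    refine ⟨u - proj W' u, ⟨Submodule.sub_mem _ hu (hle (proj_mem W' u)),
      sub_proj_mem W' u⟩, ?_⟩
    intro h
    apply huW
    rw [sub_eq_zero] at h
    rw [h]
    exact proj_mem W' u
  have hS₁i : Invariant (Gal E) S₁ := by
    rintro γ s ⟨h1, h2⟩
    refine ⟨(invariant_iff _).2 (QC.isStable_component S) γ s h1, ?_⟩
    rw [SetLike.mem_coe, mem_orth] at h2
    change (fun x => s (γ • x)) ∈ (dot (E →+* ℂ)).orthogonal W'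
    rw [mem_orth]
    intro t ht
    have h3 := h2 _ (hW'i γ⁻¹ t ht)
    rw [← Equiv.sum_comp (MulAction.toPerm γ)] at h3
    simp only [MulAction.toPerm_apply, inv_smul_smul] at h3
    exact h3
  have hS₁o : AllOdd (fun φ : E →+* ℂ => c • φ) S₁ := by
    rw [hfun]
    exact fun s hs => hs.1.1
  obtain ⟨S', hS', hle'⟩ := exists_minInv (G := Gal E) S₁ hS₁i hS₁o hS₁0
  have hSm : S ∈ MinInv (Gal E) (fun φ : E →+* ℂ => c • φ) := by
    rw [hfun]
    exact (minInv_iff S).2 hS
  have hK := QC.killers_eq_of_le hSm hS'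
    (QC.killers_le_of_le_component fun s hs => (hle' hs).1)
  obtain ⟨A, hA, hAS, s, hs, hs0⟩ := QC.exists_equivariant hSm.2.1 hSm.1 hS'.2.1 hS'.1 hK
  have h1 : A s ∈ W' := by
    refine Submodule.subset_span ⟨A.comp S.subtype, ?_, ⟨s, hs⟩, rfl⟩
    rw [equivariantMaps_eq]
    refine ⟨fun _ => Submodule.mem_top, fun γ s t h φ => ?_⟩
    have h1 : (t : (E →+* ℂ) → ℚ) = fun y => (s : (E →+* ℂ) → ℚ) (γ • y) := funext h
    change A (t : (E →+* ℂ) → ℚ) φ = A (s : (E →+* ℂ) → ℚ) (γ • φ)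
    rw [h1, hA]
  have h2 : A s ∈ (dot (E →+* ℂ)).orthogonal W' := (hle' (hAS s)).2
  exact hs0 ((Submodule.disjoint_def.1 (isCompl_orth W').disjoint) _ h1 h2)

/-- The matrix of an equivariant map on `S`, extended by zero to the orthogonal complement. -/
noncomputable def matr (S : Submodule ℚ ((E →+* ℂ) → ℚ)) (A : S →ₗ[ℚ] ((E →+* ℂ) → ℚ))
    (φ ψ : E →+* ℂ) : ℚ :=
  open Classical in A ⟨proj S (Pi.single ψ 1), proj_mem S _⟩ φ

theorem sum_matr (S : Submodule ℚ ((E →+* ℂ) → ℚ)) (A : S →ₗ[ℚ] ((E →+* ℂ) → ℚ))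
    (u : (E →+* ℂ) → ℚ) (φ : E →+* ℂ) :
    ∑ ψ, matr S A φ ψ * u ψ = A ⟨proj S u, proj_mem S _⟩ φ := by
  classical
  have h1 : (⟨proj S u, proj_mem S _⟩ : S) =
      ∑ ψ, u ψ • (⟨proj S (Pi.single ψ 1), proj_mem S _⟩ : S) := by
    apply Subtype.ext
    rw [Submodule.coe_sum]
    change proj S u = ∑ ψ, u ψ • proj S (Pi.single ψ 1)
    conv_lhs => rw [pi_eq_sum_univ' u]
    rw [map_sum]
    refine sum_congr rfl fun ψ _ => ?_
    rw [map_smul]
  rw [h1, map_sum, Finset.sum_apply]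
  refine sum_congr rfl fun ψ _ => ?_
  rw [map_smul, Pi.smul_apply, smul_eq_mul, mul_comm, matr]

theorem proj_smul {S : Submodule ℚ ((E →+* ℂ) → ℚ)} (hS : Invariant (Gal E) S) (γ : Gal E)
    (u : (E →+* ℂ) → ℚ) : proj S (fun φ => u (γ • φ)) = fun φ => proj S u (γ • φ) := by
  refine proj_eq S (hS γ _ (proj_mem S u)) ?_
  rw [mem_orth]
  intro s hs
  have h2 := (mem_orth S _).1 (sub_proj_mem S u) _ (hS γ⁻¹ s hs)
  rw [← Equiv.sum_comp (MulAction.toPerm γ)] at h2
  simp only [MulAction.toPerm_apply, inv_smul_smul, Pi.sub_apply] at h2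
  exact h2

theorem isInvariant_matr {S : Submodule ℚ ((E →+* ℂ) → ℚ)} (hS : Invariant (Gal E) S)
    {S' : Submodule ℚ ((E →+* ℂ) → ℚ)} {A : S →ₗ[ℚ] ((E →+* ℂ) → ℚ)}
    (hA : A ∈ QE.homs (Gal E) S S') : IsInvariant (matr S A) := by
  classical
  intro σ φ ψ
  obtain ⟨γ, hγ⟩ := exists_gal_smul E σ
  rw [← hγ, ← hγ, matr, matr]
  refine (hA.2 γ _ _ (fun x => ?_) φ).symm
  change proj S (Pi.single ψ 1) x = proj S (Pi.single (γ • ψ) 1) (γ • x)
  have h1 := congrFun (proj_smul hS γ (Pi.single (γ • ψ) 1)) x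
  have h2 : (Pi.single ψ 1 : (E →+* ℂ) → ℚ) =
      fun y => (Pi.single (γ • ψ) 1 : (E →+* ℂ) → ℚ) (γ • y) := by
    funext y
    rw [Pi.single_apply, Pi.single_apply]
    simp only [smul_left_cancel_iff]
  rw [h2]
  exact h1

/-- The operator of an invariant matrix. -/
noncomputable def operM (M : (E →+* ℂ) → (E →+* ℂ) → ℚ) (S : Submodule ℚ ((E →+* ℂ) → ℚ)) :
    S →ₗ[ℚ] ((E →+* ℂ) → ℚ) where
  toFun s φ := ∑ ψ, M φ ψ * (s : (E →+* ℂ) → ℚ) ψ
  map_add' s t := by
    funext φ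
    simp only [Submodule.coe_add, Pi.add_apply, mul_add, sum_add_distrib]
  map_smul' r s := by
    funext φ
    simp only [Submodule.coe_smul, Pi.smul_apply, smul_eq_mul, RingHom.id_apply, mul_sum]
    exact sum_congr rfl fun ψ _ => by ring

theorem operM_mem {M : (E →+* ℂ) → (E →+* ℂ) → ℚ} (hM : IsInvariant M)
    {S S' : Submodule ℚ ((E →+* ℂ) → ℚ)} (h : ∀ s : S, operM M S s ∈ S') :
    operM M S ∈ QE.homs (Gal E) S S' := by
  refine ⟨h, fun γ s t hst φ => ?_⟩
  change ∑ ψ, M φ ψ * (t : (E →+* ℂ) → ℚ) ψ = ∑ ψ, M (γ • φ) ψ * (s : (E →+* ℂ) → ℚ) ψ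
  obtain ⟨σ, hσ⟩ := gal_smul E γ
  rw [← Equiv.sum_comp (MulAction.toPerm γ) (fun ψ => M (γ • φ) ψ * (s : (E →+* ℂ) → ℚ) ψ)]
  refine sum_congr rfl fun ψ _ => ?_
  rw [MulAction.toPerm_apply, hst ψ, hσ φ, hσ ψ, hM σ φ ψ]

theorem component_eq {S : Submodule ℚ ((E →+* ℂ) → ℚ)} (hS : S ∈ minimalSpaces E) :
    component S = QC.component S := by
  classical
  rw [← component'_eq hS]
  have hSi : Invariant (Gal E) S := (invariant_iff S).2 hS.2.1
  apply le_antisymm
  · refine Submodule.span_le.2 ?_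
    rintro v ⟨M, hM, u, hu, hv⟩
    refine Submodule.subset_span ⟨operM M S, ?_, ⟨u, hu⟩, ?_⟩
    · rw [equivariantMaps_eq]
      exact operM_mem hM fun s => Submodule.mem_top
    · funext φ
      exact (hv φ).symm
  · refine Submodule.span_le.2 ?_
    rintro _ ⟨A, hA, s, rfl⟩
    rw [equivariantMaps_eq] at hA
    refine Submodule.subset_span ⟨matr S A, isInvariant_matr hSi hA, s, s.2, fun φ => ?_⟩
    rw [sum_matr]
    have h2 : (⟨proj S (s : (E →+* ℂ) → ℚ), proj_mem S _⟩ : S) = s :=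
      Subtype.ext (proj_of_mem S s.2)
    rw [h2]

/-- The matrices of the equivariant endomorphisms. -/
def endos (S : Submodule ℚ ((E →+* ℂ) → ℚ)) : Submodule ℚ ((E →+* ℂ) → (E →+* ℂ) → ℚ) where
  carrier := {M | IsInvariant M ∧ (∀ φ, M φ ∈ S) ∧ ∀ ψ, (fun φ => M φ ψ) ∈ S}
  zero_mem' := ⟨fun _ _ _ => rfl, fun _ => S.zero_mem, fun _ => S.zero_mem⟩
  add_mem' := by
    rintro M N ⟨h1, h2, h3⟩ ⟨h4, h5, h6⟩
    refine ⟨fun σ φ ψ => ?_, fun φ => S.add_mem (h2 φ) (h5 φ), fun ψ => S.add_mem (h3 ψ) (h6 ψ)⟩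
    change M _ _ + N _ _ = M _ _ + N _ _
    rw [h1, h4]
  smul_mem' := by
    rintro r M ⟨h1, h2, h3⟩
    refine ⟨fun σ φ ψ => ?_, fun φ => S.smul_mem r (h2 φ), fun ψ => S.smul_mem r (h3 ψ)⟩
    change r * M _ _ = r * M _ _
    rw [h1]

theorem endomorphisms_eq (S : Submodule ℚ ((E →+* ℂ) → ℚ)) : endomorphisms S = endos S :=
  span_eq_of rfl

theorem finrank_endomorphisms {S : Submodule ℚ ((E →+* ℂ) → ℚ)}
    (hS : Invariant (Gal E) S) : finrank ℚ (endomorphisms S) = QE.edim (Gal E) S := by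
  classical
  rw [endomorphisms_eq, QE.edim]
  apply le_antisymm
  · -- from matrices to maps
    let Ψ : endos S →ₗ[ℚ] QE.homs (Gal E) S S :=
      { toFun := fun M => ⟨operM M.1 S, operM_mem M.2.1 fun s => by
          have h1 : operM M.1 S s = ∑ ψ, (s : (E →+* ℂ) → ℚ) ψ • fun φ => M.1 φ ψ := by
            funext φ
            rw [Finset.sum_apply]
            exact sum_congr rfl fun ψ _ => mul_comm _ _
          rw [h1]
          exact S.sum_mem fun ψ _ => S.smul_mem _ (M.2.2.2 ψ)⟩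
        map_add' := fun M N => by
          apply Subtype.ext
          refine LinearMap.ext fun s => ?_
          funext φ
          change ∑ ψ, (M.1 φ ψ + N.1 φ ψ) * (s : (E →+* ℂ) → ℚ) ψ =
            ∑ ψ, M.1 φ ψ * (s : (E →+* ℂ) → ℚ) ψ + ∑ ψ, N.1 φ ψ * (s : (E →+* ℂ) → ℚ) ψ
          simp only [add_mul, sum_add_distrib]
        map_smul' := fun r M => by
          apply Subtype.ext
          refine LinearMap.ext fun s => ?_
          funext φ
          change ∑ ψ, (r * M.1 φ ψ) * (s : (E →+* ℂ) → ℚ) ψ =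
            r * ∑ ψ, M.1 φ ψ * (s : (E →+* ℂ) → ℚ) ψ
          simp only [mul_sum, mul_assoc] }
    refine LinearMap.finrank_le_finrank_of_injective (f := Ψ)
      ((injective_iff_map_eq_zero Ψ).2 ?_)
    intro M hM
    apply Subtype.ext
    funext φ
    refine dot_self ?_
    rw [dot_apply]
    have h1 := congrArg (fun A : QE.homs (Gal E) S S => A.1 ⟨M.1 φ, M.2.2.1 φ⟩ φ) hM
    exact h1
  · let Φ : QE.homs (Gal E) S S →ₗ[ℚ] endos S :=
      { toFun := fun A => ⟨matr S A.1, isInvariant_matr hS A.2, fun φ => by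
          -- the rows
          have h1 : ∀ t ∈ (dot (E →+* ℂ)).orthogonal S, ∑ ψ, t ψ * matr S A.1 φ ψ = 0 := by
            intro t ht
            have h2 := sum_matr S A.1 t φ
            have h3 : (⟨proj S t, proj_mem S _⟩ : S) = 0 := Subtype.ext (proj_of_orth S ht)
            rw [h3, map_zero, Pi.zero_apply] at h2
            rw [← h2]
            exact sum_congr rfl fun ψ _ => mul_comm _ _
          set w := matr S A.1 φ with hw
          have h4 : w - proj S w = 0 := by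
            refine dot_self ?_
            have h5 := h1 _ (sub_proj_mem S w)
            have h6 := (mem_orth S _).1 (sub_proj_mem S w) _ (proj_mem S w)
            rw [dot_apply]
            have h7 : ∑ x, (w - proj S w) x * (w - proj S w) x =
                ∑ x, (w - proj S w) x * w x - ∑ x, proj S w x * (w - proj S w) x := by
              rw [← sum_sub_distrib]
              refine sum_congr rfl fun x _ => ?_
              rw [Pi.sub_apply]
              ring
            rw [h7, h5, h6, sub_zero]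
          rw [sub_eq_zero] at h4
          rw [h4]
          exact proj_mem S w, fun ψ => A.2.1 _⟩
        map_add' := fun A B => rfl
        map_smul' := fun r A => rfl }
    refine LinearMap.finrank_le_finrank_of_injective (f := Φ) ?_
    intro A B hAB
    apply Subtype.ext
    refine LinearMap.ext fun s => ?_
    funext φ
    have h1 := sum_matr S A.1 s φ
    have h1' := sum_matr S B.1 s φ
    have h2 : (⟨proj S (s : (E →+* ℂ) → ℚ), proj_mem S _⟩ : S) = s :=
      Subtype.ext (proj_of_mem S s.2)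
    rw [h2] at h1 h1'
    have h3 : matr S A.1 = matr S B.1 := congrArg Subtype.val hAB
    rw [← h1, ← h1', h3]

theorem components_eq : components E = QC.components E := by
  unfold components QC.components
  exact Set.image_congr fun S hS => component_eq hS

theorem numSimple_eq (d : ℕ) : numSimple E d = QC.numSimple E d := by
  unfold numSimple QC.numSimple
  rw [components_eq]

theorem multipleComponents_eq : multipleComponents E = QC.multipleComponents E := by
  unfold multipleComponents QC.multipleComponents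
  rw [components_eq]

end Pool.Agent.TH170.QD
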