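import Mathlib
import Pool.Agent.TH170.QD.Defs
import Pool.Agent.TH170.MF.Quad

/-!
# Parity: spaces without orthogonal CM types
-/

set_option linter.unusedSectionVars false
set_option linter.unusedVariables false

namespace Pool.Agent.TH170.QD

open NumberField Finset Module Pool.Agent.H204R3.CM Pool.Agent.TH170.CM Pool.Agent.TH170.MF

variable {E : Type*} [Field E] [NumberField E] [IsCMField E]

/-- There are no CM types orthogonal to a space of odd functions with an odd sum. -/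
theorem not_orthogonal_of_hasOddSum {S : Submodule ℚ ((E →+* ℂ) → ℚ)} (ho : IsOddSpace S)
    (h : HasOddSum S) (Φ : Set (E →+* ℂ)) : Φ ∉ typesOrthogonalTo S := by
  classical
  rintro ⟨hΦ, hsum⟩
  obtain ⟨u, huS, T, hT, hodd⟩ := h
  have h2 := hsum _ huS
  have hTt : ∀ φ, φ ∈ T.toFinset ↔ ComplexEmbedding.conjugate φ ∉ T.toFinset := by
    intro φ
    rw [Set.mem_toFinset, Set.mem_toFinset]
    exact hT φ
  rw [sum_transversal (c := ComplexEmbedding.conjugate (K := E)) conj_conj hTt] at h2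
  have h3 : ∀ φ ∈ T.toFinset, (u φ : ℚ) * sgn Φ φ +
      (u (ComplexEmbedding.conjugate φ) : ℚ) * sgn Φ (ComplexEmbedding.conjugate φ) =
      2 * ((u φ * sgn Φ φ : ℤ) : ℚ) := by
    intro φ _
    have h4 : ((u (ComplexEmbedding.conjugate φ) : ℤ) : ℚ) = - (u φ : ℚ) := ho _ huS φ
    rw [h4, (oddSign_sgn hΦ).2]
    push_cast
    ring
  rw [sum_congr rfl h3, ← mul_sum, ← Int.cast_sum] at h2
  have h4 := (mul_eq_zero.1 h2).resolve_left two_ne_zero
  have h5 : ∑ φ ∈ T.toFinset, u φ * sgn Φ φ = 0 := by exact_mod_cast h4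
  have h6 : ∑ᶠ φ ∈ T, u φ = ∑ φ ∈ T.toFinset, u φ := by
    rw [finsum_mem_eq_toFinset_sum]
  rw [h6] at hodd
  have h7 : ((∑ φ ∈ T.toFinset, u φ * sgn Φ φ : ℤ) : ZMod 2) =
      ((∑ φ ∈ T.toFinset, u φ : ℤ) : ZMod 2) := by
    rw [Int.cast_sum, Int.cast_sum]
    refine sum_congr rfl fun φ _ => ?_
    rcases (oddSign_sgn hΦ).1 φ with h8 | h8
    · rw [h8, mul_one]
    · rw [h8, mul_neg, mul_one, Int.cast_neg]
      exact ZMod.neg_eq_self_mod_two _
  rw [h5, Int.cast_zero] at h7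
  exact (Int.not_even_iff_odd.2 hodd) ((ZMod.intCast_eq_zero_iff_even).1 h7.symm)

/-- A one-dimensional minimal space has an odd sum if `g` is odd. -/
theorem hasOddSum_of_finrank_one {S : Submodule ℚ ((E →+* ℂ) → ℚ)} (hS : S ∈ minimalSpaces E)
    (h1 : finrank ℚ S = 1) {g : ℕ} (hg : finrank ℚ E = 2 * g) (hodd : Odd g) : HasOddSum S := by
  classical
  obtain ⟨ε, hε, rfl⟩ := exists_signChar hS h1
  refine ⟨ε, Submodule.mem_span_singleton_self _, ?_⟩
  obtain ⟨T, hT⟩ := exists_transversal (X := E →+* ℂ) (c := ComplexEmbedding.conjugate (K := E))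
    conj_conj conj_ne
  have hTg : T.card = g := by
    have := card_transversal (X := E →+* ℂ) (c := ComplexEmbedding.conjugate (K := E)) conj_conj hT
    rw [Embeddings.card, hg] at this
    omega
  refine ⟨(T : Set (E →+* ℂ)), fun φ => hT φ, ?_⟩
  rw [finsum_mem_coe_finset, ← Int.not_even_iff_odd]
  intro heven
  have h2 : ((∑ φ ∈ T, ε φ : ℤ) : ZMod 2) = (T.card : ZMod 2) := by
    rw [Int.cast_sum, card_eq_sum_ones, Nat.cast_sum]
    refine sum_congr rfl fun x _ => ?_
    rcases hε.val x with h2 | h2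
    · rw [h2]
      rfl
    · rw [h2]
      rfl
  rw [(ZMod.intCast_eq_zero_iff_even).2 heven] at h2
  have h3 : Even T.card := (ZMod.natCast_eq_zero_iff_even).1 h2.symm
  rw [hTg] at h3
  exact (Nat.not_even_iff_odd.2 hodd) h3

end Pool.Agent.TH170.QD
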