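import Mathlib
import Pool.Agent.TH170.QD.Bridge
import Pool.Agent.TH170.QD.Parity
import Pool.Agent.TH170.MF.Examples

/-!
# The number of the degenerate CM types of a CM field: the explicit bound
-/

set_option linter.unusedSectionVars false
set_option linter.unusedVariables false

namespace Pool.Agent.TH170.QD

open NumberField Finset Module Pool.Agent.H204R3.CM Pool.Agent.TH170.CM Pool.Agent.TH170.MF

variable {E : Type*} [Field E] [NumberField E] [IsCMField E]

theorem term_eq {g : ℕ} (φ₀ : E →+* ℂ) {S : Submodule ℚ ((E →+* ℂ) → ℚ)}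
    (hS : Invariant (Gal E) S) : term g φ₀ S = min
      (QE.boundA g (finrank ℚ S) (QE.edim (Gal E) S + QE.codimFix (Gal E) φ₀ S)
        (Real.log (Nat.card (Gal E))))
      (QC.boundC g (finrank ℚ S) (QE.edim (Gal E) S + QE.codimFix (Gal E) φ₀ S)
        (Real.log (Nat.card (Gal E)))) := by
  classical
  unfold term bound QE.boundA QC.boundC codim QE.codimFix
  rw [galoisOrder_eq, finrank_endomorphisms hS, fixedPart_eq]

/-- The types orthogonal to a minimal space with the component of `S₀`. -/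
theorem ncard_at_le_term {g : ℕ} (hg : finrank ℚ E = 2 * g) (φ₀ : E →+* ℂ)
    {S₀ : Submodule ℚ ((E →+* ℂ) → ℚ)} (hS₀ : S₀ ∈ minimalSpaces E) :
    (({Φ : Set (E →+* ℂ) | ∃ S ∈ minimalSpaces E, QC.component S = QC.component S₀ ∧
      Φ ∈ typesOrthogonalTo S}.ncard : ℕ) : ℝ) ≤ 2 ^ g * term g φ₀ S₀ := by
  classical
  obtain ⟨c, hc, hcc, hcen⟩ := QC.exists_conj E
  have hfun : (fun φ : E →+* ℂ => c • φ) = ComplexEmbedding.conjugate (K := E) := funext hc
  have hmin : S₀ ∈ MinInv (Gal E) (fun φ : E →+* ℂ => c • φ) := by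
    rw [hfun]
    exact (minInv_iff S₀).2 hS₀
  have hfree : ∀ φ : E →+* ℂ, c • φ ≠ φ := fun φ => by
    rw [hc]
    exact conj_ne φ
  have hcard : Fintype.card (E →+* ℂ) = 2 * g := by rw [Embeddings.card, hg]
  have hA := QE.ncard_orth_boundA hcc hfree hcen hcard hmin φ₀
  have hC := QE.ncard_orth_boundC hcc hfree hcen hcard hmin φ₀
  have h1 : (((QC.orthClass c (E →+* ℂ)
      (QC.killers (Gal E) (S₀ : Set ((E →+* ℂ) → ℚ)))).ncard : ℕ) : ℝ) ≤
      2 ^ g * term g φ₀ S₀ := by
    rw [term_eq φ₀ ((invariant_iff S₀).2 hS₀.2.1), mul_min_of_nonneg _ _ (by positivity)]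
    exact le_min hA hC
  refine le_trans ?_ h1
  rw [Nat.cast_le]
  refine Set.ncard_le_ncard_of_injOn sgn ?_ ?_
    ((GC.finite_oddSigns (X := E →+* ℂ) (fun x => c • x)).subset fun f hf => hf.1)
  · rintro Φ ⟨S, hS, hSW', hΦ, hsum⟩
    refine ⟨?_, S, ?_, ?_, fun s hs => ?_⟩
    · change OddSign (fun x => c • x) (sgn Φ)
      rw [hfun]
      exact oddSign_sgn hΦ
    · rw [hfun]
      exact (minInv_iff S).2 hS
    · have h3 : QC.classKillers S = QC.classKillers S₀ := by
        rw [← QC.classKillers_component hS, ← QC.classKillers_component hS₀, hSW']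
      exact h3
    · rw [← hsum s hs]
      exact sum_congr rfl fun φ _ => mul_comm _ _
  · intro Φ _ Φ' _ h
    exact sgn_injective h

/-- The types that are degenerate at a component. -/
theorem ncard_at_weight {g : ℕ} (hg : finrank ℚ E = 2 * g) (φ₀ : E →+* ℂ)
    {W : Submodule ℚ ((E →+* ℂ) → ℚ)} (hW : W ∈ QC.components E) :
    (({Φ : Set (E →+* ℂ) | ∃ S ∈ minimalSpaces E, QC.component S = W ∧
      Φ ∈ typesOrthogonalTo S}.ncard : ℕ) : ℝ) ≤ 2 ^ g * weight g φ₀ W := by
  classical
  by_cases hodd : ∀ S ∈ minimalSpaces E, S ≤ W → HasOddSum S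
  · rw [weight, if_pos hodd, mul_zero]
    have h0 : {Φ : Set (E →+* ℂ) | ∃ S ∈ minimalSpaces E, QC.component S = W ∧
        Φ ∈ typesOrthogonalTo S} = ∅ := by
      rw [Set.eq_empty_iff_forall_notMem]
      rintro Φ ⟨S, hS, hSW, hΦ⟩
      exact not_orthogonal_of_hasOddSum hS.2.2.1
        (hodd S hS (hSW ▸ QC.le_component hS)) Φ hΦ
    rw [h0, Set.ncard_empty, Nat.cast_zero]
  rw [weight, if_neg hodd]
  by_cases hWm : W ∈ minimalSpaces E
  · have h1 := QC.ncard_at_component hg hW
    rw [QC.weight, if_pos hWm] at h1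
    rw [if_pos hWm]
    refine h1.trans (mul_le_mul_of_nonneg_left ?_ (by positivity))
    split_ifs
    · positivity
    · exact le_rfl
  · rw [if_neg hWm, ← div_le_iff₀' (by positivity)]
    refine le_csInf ?_ ?_
    · obtain ⟨S, hS, hSW⟩ := hW
      exact ⟨_, S, hS, (component_eq hS).trans hSW, rfl⟩
    · rintro _ ⟨S, hS, hSW, rfl⟩
      rw [div_le_iff₀' (by positivity), ← hSW, component_eq hS]
      exact ncard_at_le_term hg φ₀ hS

/-- **The number of the degenerate CM types of an arbitrary CM field.** -/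
theorem ncard_degenerate_le (E : Type*) [Field E] [NumberField E] [IsCMField E]
    {g : ℕ} (hg : finrank ℚ E = 2 * g) (φ₀ : E →+* ℂ) :
    ((degenerateTypes E).ncard : ℝ) ≤ 2 ^ g * ∑ᶠ W ∈ components E, weight g φ₀ W := by
  classical
  rw [components_eq]
  have hfin := QC.finite_components (E := E)
  rw [finsum_mem_eq_finite_toFinset_sum _ hfin, mul_sum]
  have h1 : degenerateTypes E ⊆ ⋃ W ∈ hfin.toFinset, {Φ : Set (E →+* ℂ) |
      ∃ S ∈ minimalSpaces E, QC.component S = W ∧ Φ ∈ typesOrthogonalTo S} := by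
    rintro Φ ⟨hΦ, hd⟩
    obtain ⟨S, hS, hmem⟩ := exists_minimal_of_degenerate hΦ hd
    exact Set.mem_biUnion (hfin.mem_toFinset.2 ⟨S, hS, rfl⟩) ⟨S, hS, rfl, hmem⟩
  have h2 : (degenerateTypes E).ncard ≤ ∑ W ∈ hfin.toFinset, {Φ : Set (E →+* ℂ) |
      ∃ S ∈ minimalSpaces E, QC.component S = W ∧ Φ ∈ typesOrthogonalTo S}.ncard := by
    refine (Set.ncard_le_ncard h1 (Set.toFinite _)).trans ?_
    exact Finset.set_ncard_biUnion_le _ _
  refine (Nat.cast_le.2 h2).trans ?_
  rw [Nat.cast_sum]
  exact sum_le_sum fun W hW => ncard_at_weight hg φ₀ (hfin.mem_toFinset.1 hW)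

/-- The sum of the weights of the minimal components. -/
theorem sum_weight_le (E : Type*) [Field E] [NumberField E] [IsCMField E]
    {g : ℕ} (hg : finrank ℚ E = 2 * g) (φ₀ : E →+* ℂ) :
    ∑ᶠ W ∈ components E, weight g φ₀ W ≤
      (if Even g then (numImagQuadratic E : ℝ) / √g else 0) + 2 * (numSimple E 2 + 1) / g +
        3 * numSimple E 3 / (g * √g) + ∑ᶠ W ∈ multipleComponents E, weight g φ₀ W := by
  classical
  rw [numSimple_eq, numSimple_eq, multipleComponents_eq, components_eq]
  have hfin := QC.finite_components (E := E)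
  have hg0 : 0 < g := by
    have := Module.finrank_pos (R := ℚ) (M := E)
    omega
  set F := hfin.toFinset.filter (fun W => W ∈ minimalSpaces E) with hF
  set F' := hfin.toFinset.filter (fun W => W ∉ minimalSpaces E) with hF'
  have hmul : QC.multipleComponents E = (F' : Set (Submodule ℚ ((E →+* ℂ) → ℚ))) := by
    ext W
    simp only [QC.multipleComponents, hF', coe_filter, Set.Finite.mem_toFinset,
      Set.mem_ofPred_eq]
  have hFcomp : ∀ W ∈ F, W ∈ QC.components E ∧ W ∈ minimalSpaces E := by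
    intro W hW
    rw [hF, mem_filter, hfin.mem_toFinset] at hW
    exact hW
  have hselfF : ∀ W ∈ F, QC.component W = W := by
    intro W hW
    obtain ⟨⟨S, hS, hSW⟩, hWm⟩ := hFcomp W hW
    have h5 : S ≤ W := hSW ▸ QC.le_component hS
    rcases hWm.2.2.2 S hS.2.1 h5 with h6 | h6
    · exact absurd h6 hS.1
    · rw [h6] at hSW
      exact hSW
  have hsumF : ∑ W ∈ F, finrank ℚ W ≤ g := by
    refine MF.sum_finrank_le (c := ComplexEmbedding.conjugate (K := E)) conj_conj conj_ne F
      (fun W hW => (hFcomp W hW).2.2.2.1) ?_ (by rw [Embeddings.card, hg])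
    intro W hW W' hW' hne
    refine QC.orth_of_killers_ne ((minInv_iff W).2 (hFcomp W hW).2)
      ((minInv_iff W').2 (hFcomp W' hW').2) ?_
    intro h
    apply hne
    rw [← hselfF W hW, ← hselfF W' hW']
    exact QC.component_congr h
  have h5 := sum_counts_le F (fun W => finrank ℚ W)
    (fun W hW => finrank_pos_of_minimal E (hFcomp W hW).2) hg0 hsumF
    (fun W => weight g φ₀ W)
    (fun W hW => by
      rw [weight, if_pos (hFcomp W hW).2]
      split_ifs
      · positivity
      · exact le_rfl)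
    (fun hodd W hW hd => by
      rw [weight, if_pos]
      intro S hS hSW
      rcases (hFcomp W hW).2.2.2.2 S hS.2.1 hSW with h6 | h6
      · exact absurd h6 hS.1
      · rw [h6]
        exact hasOddSum_of_finrank_one (hFcomp W hW).2 hd hg hodd)
  have h6 : ∀ d, ((F.filter (fun W : Submodule ℚ ((E →+* ℂ) → ℚ) => finrank ℚ W = d)).card : ℝ) =
      QC.numSimple E d := by
    intro d
    have h7 : {W ∈ QC.components E | W ∈ minimalSpaces E ∧ finrank ℚ W = d} =
        ((F.filter (fun W : Submodule ℚ ((E →+* ℂ) → ℚ) => finrank ℚ W = d) :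
          Finset (Submodule ℚ ((E →+* ℂ) → ℚ))) : Set (Submodule ℚ ((E →+* ℂ) → ℚ))) := by
      ext W
      simp only [hF, coe_filter, mem_filter, Set.Finite.mem_toFinset,
        Set.mem_ofPred_eq]
      tauto
    unfold QC.numSimple
    rw [h7, Set.ncard_coe_finset]
  rw [h6, h6, h6] at h5
  have h7 : (QC.numSimple E 1 : ℝ) ≤ numImagQuadratic E := by
    exact_mod_cast QC.numSimple_one_le E
  have h8 : (if Even g then (QC.numSimple E 1 : ℝ) / √g else 0) ≤
      (if Even g then (numImagQuadratic E : ℝ) / √g else 0) := by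
    split_ifs
    · exact div_le_div_of_nonneg_right h7 (Real.sqrt_nonneg _)
    · exact le_rfl
  have h3 : ∑ᶠ W ∈ QC.components E, weight g φ₀ W =
      ∑ W ∈ F, weight g φ₀ W + ∑ W ∈ F', weight g φ₀ W := by
    rw [finsum_mem_eq_finite_toFinset_sum _ hfin, hF, hF', sum_filter_add_sum_filter_not]
  rw [h3, hmul, finsum_mem_coe_finset]
  linarith

/-- In the multiplicity free case there are no multiple components. -/
theorem multipleComponents_of_mf (hE : MultiplicityFree E) : multipleComponents E = ∅ := by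
  rw [multipleComponents_eq]
  exact QC.multipleComponents_of_mf hE

/-- A property of the types that are not degenerate fails for few types. -/
theorem ncard_le_of_nondegenerate (E : Type*) [Field E] [NumberField E] [IsCMField E]
    {g : ℕ} (hg : finrank ℚ E = 2 * g) (φ₀ : E →+* ℂ) (P : Set (E →+* ℂ) → Prop)
    (hP : ∀ Φ, IsCMType Φ → ¬ Degenerate Φ → P Φ) :
    (({Φ | IsCMType Φ ∧ ¬ P Φ} : Set (Set (E →+* ℂ))).ncard : ℝ) ≤
      2 ^ g * ∑ᶠ W ∈ components E, weight g φ₀ W := by
  refine le_trans ?_ (ncard_degenerate_le E hg φ₀)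
  rw [Nat.cast_le]
  refine Set.ncard_le_ncard ?_ (Set.toFinite _)
  rintro Φ ⟨h1, h2⟩
  refine ⟨h1, ?_⟩
  by_contra h3
  exact h2 (hP Φ h1 h3)

end Pool.Agent.TH170.QD
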