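import Mathlib
import Pool.Agent.TH170.QD.Main
import Pool.Agent.TH170.GH.Total

/-!
# Families of CM types with a degenerate member
-/

set_option linter.unusedSectionVars false
set_option linter.unusedVariables false

namespace Pool.Agent.TH170.QD

open NumberField Finset Module Pool.Agent.H204R3.CM Pool.Agent.TH170.CM Pool.Agent.TH170.MF

/-- The number of CM types. -/
theorem ncard_cmTypes (E : Type*) [Field E] [NumberField E] [IsCMField E] {g : ℕ}
    (hg : finrank ℚ E = 2 * g) : {Φ : Set (E →+* ℂ) | IsCMType Φ}.ncard = 2 ^ g := by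
  have h1 := Pool.Agent.TH170.GH.ncard_types (fun _ : Unit => E) g
    (by rw [sum_const, card_univ, Fintype.card_unit, hg, one_smul])
  rw [← h1]
  refine (Set.ncard_congr (fun Φ _ => Φ ()) ?_ ?_ ?_).symm
  · intro Φ hΦ
    exact hΦ ()
  · intro Φ Ψ _ _ h
    funext u
    exact h
  · intro Φ hΦ
    exact ⟨fun _ => Φ, fun _ => hΦ, rfl⟩

/-- A property of the families of types that are not degenerate fails for few families. -/
theorem ncard_families_le {ι : Type*} [Fintype ι] (E : ι → Type*) [∀ i, Field (E i)]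
    [∀ i, NumberField (E i)] [∀ i, IsCMField (E i)] {g : ι → ℕ}
    (hg : ∀ i, finrank ℚ (E i) = 2 * g i) (φ₀ : ∀ i, E i →+* ℂ)
    (P : (∀ i, Set (E i →+* ℂ)) → Prop)
    (hP : ∀ Φ : ∀ i, Set (E i →+* ℂ), (∀ i, IsCMType (Φ i)) → (∀ i, ¬ Degenerate (Φ i)) → P Φ) :
    (({Φ : ∀ i, Set (E i →+* ℂ) | (∀ i, IsCMType (Φ i)) ∧ ¬ P Φ}.ncard : ℕ) : ℝ) ≤
      2 ^ (∑ i, g i) * ∑ i, ∑ᶠ W ∈ components (E i), weight (g i) (φ₀ i) W := by
  classical
  let A : ∀ i, Finset (Set (E i →+* ℂ)) := fun i => univ.filter (fun Φ => IsCMType Φ)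
  let B : ∀ i, Finset (Set (E i →+* ℂ)) :=
    fun i => univ.filter (fun Φ => IsCMType Φ ∧ Degenerate Φ)
  have hA : ∀ i, (A i).card = 2 ^ g i := by
    intro i
    rw [← ncard_cmTypes (E i) (hg i), ← Set.ncard_coe_finset]
    congr 1
    ext Φ
    simp only [A, coe_filter, mem_univ, true_and, Set.mem_ofPred_eq]
  have hB : ∀ i, ((B i).card : ℝ) ≤
      2 ^ g i * ∑ᶠ W ∈ components (E i), weight (g i) (φ₀ i) W := by
    intro i
    have h1 := ncard_degenerate_le (E i) (hg i) (φ₀ i)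
    have h2 : (degenerateTypes (E i)).ncard = (B i).card := by
      rw [← Set.ncard_coe_finset]
      congr 1
      ext Φ
      simp only [B, coe_filter, mem_univ, true_and, Set.mem_ofPred_eq, degenerateTypes]
    rw [h2] at h1
    exact h1
  let C : ι → Finset (∀ i, Set (E i →+* ℂ)) := fun i =>
    Fintype.piFinset (Function.update A i (B i))
  have hsub : {Φ : ∀ i, Set (E i →+* ℂ) | (∀ i, IsCMType (Φ i)) ∧ ¬ P Φ} ⊆
      ((univ.biUnion C : Finset (∀ i, Set (E i →+* ℂ))) : Set (∀ i, Set (E i →+* ℂ))) := by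
    rintro Φ ⟨h1, h2⟩
    rw [mem_coe, mem_biUnion]
    by_contra h3
    apply h2
    refine hP Φ h1 fun i hi => h3 ⟨i, mem_univ i, ?_⟩
    rw [Fintype.mem_piFinset]
    intro k
    by_cases hk : k = i
    · subst hk
      rw [Function.update_self]
      exact mem_filter.2 ⟨mem_univ _, h1 k, hi⟩
    · rw [Function.update_of_ne hk]
      exact mem_filter.2 ⟨mem_univ _, h1 k⟩
  have hcard : ∀ i, ((C i).card : ℝ) ≤
      2 ^ (∑ i, g i) * ∑ᶠ W ∈ components (E i), weight (g i) (φ₀ i) W := by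
    intro i
    have h1 : (C i).card = (B i).card * ∏ k ∈ univ.erase i, 2 ^ g k := by
      rw [Fintype.card_piFinset, ← mul_prod_erase univ _ (mem_univ i), Function.update_self]
      congr 1
      refine prod_congr rfl fun k hk => ?_
      rw [Function.update_of_ne (ne_of_mem_erase hk), hA]
    have h2 : (2 : ℝ) ^ (∑ i, g i) = 2 ^ g i * ∏ k ∈ univ.erase i, (2 : ℝ) ^ g k := by
      rw [← prod_pow_eq_pow_sum, ← mul_prod_erase univ _ (mem_univ i)]
    rw [h1, h2, Nat.cast_mul, Nat.cast_prod]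
    simp only [Nat.cast_pow, Nat.cast_ofNat]
    have h3 : (0 : ℝ) ≤ ∏ k ∈ univ.erase i, (2 : ℝ) ^ g k := by positivity
    calc ((B i).card : ℝ) * ∏ k ∈ univ.erase i, (2 : ℝ) ^ g k ≤
        (2 ^ g i * ∑ᶠ W ∈ components (E i), weight (g i) (φ₀ i) W) *
          ∏ k ∈ univ.erase i, (2 : ℝ) ^ g k := mul_le_mul_of_nonneg_right (hB i) h3
      _ = _ := by ring
  have h4 : {Φ : ∀ i, Set (E i →+* ℂ) | (∀ i, IsCMType (Φ i)) ∧ ¬ P Φ}.ncard ≤
      ∑ i, (C i).card := by
    refine (Set.ncard_le_ncard hsub (Finset.finite_toSet _)).trans ?_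
    rw [Set.ncard_coe_finset]
    exact card_biUnion_le
  calc (({Φ : ∀ i, Set (E i →+* ℂ) | (∀ i, IsCMType (Φ i)) ∧ ¬ P Φ}.ncard : ℕ) : ℝ) ≤
      ((∑ i, (C i).card : ℕ) : ℝ) := Nat.cast_le.2 h4
    _ = ∑ i, ((C i).card : ℝ) := by rw [Nat.cast_sum]
    _ ≤ ∑ i, 2 ^ (∑ i, g i) * ∑ᶠ W ∈ components (E i), weight (g i) (φ₀ i) W :=
        sum_le_sum fun i _ => hcard i
    _ = _ := by rw [mul_sum]

end Pool.Agent.TH170.QD
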