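import Mathlib
import Pool.Agent.TH170.QD.Defs
import Pool.Agent.TH170.MF.Quad
import Pool.Agent.TH170.MF.Examples

/-!
# The bound for the proportion of the degenerate CM types
-/

namespace Pool.Agent.TH170.QD

open NumberField Module Pool.Agent.H204R3.CM Pool.Agent.TH170.MF

/-- The bound `ρ` for the proportion of the degenerate CM types of a CM field `E` of degree `2 g`:
the sum of the weights of the isotypic components. -/
noncomputable def rho {E : Type*} [Field E] [NumberField E] (g : ℕ) (φ₀ : E →+* ℂ) : ℝ :=
  ∑ᶠ W ∈ components E, weight g φ₀ W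

/-- The estimate of the contribution of the components that are minimal spaces to `ρ`, for all CM
fields `E`. -/
def RhoEstimate : Prop :=
  ∀ (E : Type) [Field E] [NumberField E] [IsCMField E] (g : ℕ) (φ₀ : E →+* ℂ),
    finrank ℚ E = 2 * g → rho g φ₀ ≤
      (if Even g then (numImagQuadratic E : ℝ) / √g else 0) + 2 * (numSimple E 2 + 1) / g +
        3 * numSimple E 3 / (g * √g) + ∑ᶠ W ∈ multipleComponents E, weight g φ₀ W

/-- Two kinds of CM fields all of whose isotypic components are minimal spaces. -/
def NoMultipleComponents : Prop :=
  ∀ (E : Type) [Field E] [NumberField E] [IsCMField E],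
    IsAbelianGalois ℚ E ∨ ExchangeableEmbeddings E → multipleComponents E = ∅

end Pool.Agent.TH170.QD
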