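import Mathlib
import Pool.Agent.TH170.QD.Family
import Pool.Agent.TH170.QD.Rho

/-!
# The bound for the proportion of the exceptional families, in the form used for the applications
-/

set_option linter.unusedSectionVars false
set_option linter.unusedVariables false

namespace Pool.Agent.TH170.QD

open NumberField Finset Module Pool.Agent.H204R3.CM Pool.Agent.TH170.CM Pool.Agent.TH170.MF

/-- The sum of the weights, and the fields all of whose components are minimal. -/
theorem rho_bounds : RhoEstimate ∧ NoMultipleComponents := by
  refine ⟨fun E _ _ _ g φ₀ hg => sum_weight_le E hg φ₀, fun E _ _ _ h => ?_⟩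
  apply multipleComponents_of_mf
  rcases h with h | h
  · exact multiplicityFree_of_abelian E
  · exact multiplicityFree_of_exchangeable E h

end Pool.Agent.TH170.QD
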